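import Pool.Agent.H62.Cbs3

set_option autoImplicit false

namespace Pool.Agent.Results.MP_88baa4_lc.NotRed

open Pool.Agent.H62.Pk

/-- Closed choice on Baire space is Weihrauch reducible neither to CB nor to ScList on Baire
space. -/
theorem result :
    ¬ WLe negRep baireRep CN negRep (prodRep negRep (prodRep listRep natRep)) CB ∧
    ¬ WLe negRep baireRep CN negRep (prodRep listRep natRep) ScList :=
  ⟨not_CB, not_ScList⟩

end Pool.Agent.Results.MP_88baa4_lc.NotRed
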